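import Pool.Agent.H99.Bouquet2

open MeasureTheory Filter Topology
open scoped ENNReal NNReal

noncomputable section

namespace Pool.Agent.Results.MP_a6f573_an.Counter

open Pool.Agent.H99.UAlg

def mu : FiniteMeasure Bq := ⟨om 0 + lam 1, inferInstance⟩

def mu' : FiniteMeasure Bq := ⟨om 0 + lam 0, inferInstance⟩

theorem mu_coe : (mu : Measure Bq) = om 0 + lam 1 := rfl

theorem mu'_coe : (mu' : Measure Bq) = om 0 + lam 0 := rfl

theorem ae_mu {p : Bq → Prop}
    (h : ∀ n, n = 0 ∨ n = 1 → ∀ x : Bq,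
      (x.1 n * star (x.1 n) = 1 ∧ ∀ i, i ≠ n → x.1 i = 0) → p x) :
    ∀ᵐ x ∂(mu : Measure Bq), p x := by
  rw [mu_coe, ae_add_measure_iff]
  exact ⟨(ae_om_on 0).mono (h 0 (by simp)), (ae_lam_on 1).mono (h 1 (by simp))⟩

theorem ind_ne {i : ℕ} (hi : i ≠ 1) : ind i ∈ Lcl BA mu :=
  ind_mem_Lcl fun ε hε u hu => by
    rw [mu_coe, lintegral_add_measure, lint_zero hu ((ae_lam_on 1).mono fun _ hx => hx.2 i hi),
      add_zero]
    exact (lint_om_le 0 hu).trans (ENNReal.ofReal_le_ofReal (by linarith))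

theorem extremal : Extremal BA mu := by
  refine extremal_of_dense (dense_of_Lcl (Lcl_top (ae_mu fun _ _ _ hx => onY_of hx) fun i => ?_))
  by_cases hi : i = 1
  · subst hi
    refine mem_Lcl_of_ae (Submodule.sub_mem _ (AA_le_Lcl _ _ (mem_AA BA.one_mem))
      (ind_ne (i := 0) (by simp))) (ae_mu ?_)
    rintro n (rfl | rfl) x hx
    · simp only [ind, ContinuousMap.mul_apply, ContinuousMap.star_apply, X_apply, hx.1,
        hx.2 1 (by simp), ContinuousMap.sub_apply]
      simp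
    · simp only [ind, ContinuousMap.mul_apply, ContinuousMap.star_apply, X_apply, hx.1,
        hx.2 0 (by simp), ContinuousMap.sub_apply]
      simp
  · exact ind_ne hi

theorem mu'_mem : mu' ∈ E BA mu := by
  have h0 : om 0 ≪ (mu : Measure Bq) := (Measure.le_add_right le_rfl).absolutelyContinuous
  refine ⟨Measure.AbsolutelyContinuous.add_left h0 ((lam_ac 0).trans h0), fun f hf => ?_⟩
  rw [mu_coe, mu'_coe, integral_add_measure (integrable_cm _ _) (integrable_cm _ _),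
    integral_add_measure (integrable_cm _ _) (integrable_cm _ _), int_lam_BA 0 f hf,
    int_lam_BA 1 f hf]

theorem lint_eq_zero {ν : Measure Bq} {g : Bq → EReal} (h : ∀ᵐ x ∂ν, g x ≤ 0) :
    ∫⁻ x, (g x).toENNReal ∂ν = 0 := by
  rw [← lintegral_zero (μ := ν)]
  exact lintegral_congr_ae (h.mono fun x hx => EReal.toENNReal_of_nonpos hx)

theorem logInt_zero {ν : FiniteMeasure Bq} {f : C(Bq, ℂ)}
    (h : ∀ᵐ x ∂(ν : Measure Bq), ‖f x‖ = 1) : logInt f ν = 0 := by
  have h' : ∀ᵐ x ∂(ν : Measure Bq), ENNReal.log ‖f x‖ₑ = 0 :=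
    h.mono fun x hx => by rw [← ofReal_norm, hx]; simp
  rw [logInt, lint_eq_zero (h'.mono fun x hx => hx.le),
    lint_eq_zero (h'.mono fun x hx => by rw [hx]; simp)]
  simp

theorem meas_log (f : C(Bq, ℂ)) : Measurable fun x => ENNReal.log ‖f x‖ₑ :=
  ENNReal.measurable_log.comp f.continuous.measurable.enorm

theorem nodom (σ : FiniteMeasure Bq) (h1 : Le BA mu' σ) (h2 : Le BA mu σ) : False := by
  have a1 := h1 (X 0) (X_mem 0)
  rw [logInt_zero (ν := mu') (by
    rw [mu'_coe, ae_add_measure_iff]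
    exact ⟨(ae_om_on 0).mono fun x hx => norm_eq_one_of hx.1,
      (ae_lam_on 0).mono fun x hx => norm_eq_one_of hx.1⟩), logInt,
    lint_eq_zero (Eventually.of_forall fun x => by
      rw [ENNReal.log_le_zero_iff, ← ofReal_norm]
      exact ENNReal.ofReal_le_one.2 (x.2.1 0))] at a1
  simp only [EReal.coe_ennreal_zero, zero_sub] at a1
  rw [EReal.le_neg, neg_zero] at a1
  have a2 : ∫⁻ s, (-ENNReal.log ‖X 0 s‖ₑ).toENNReal ∂(σ : Measure Bq) = 0 := by
    have := le_antisymm a1 (EReal.coe_ennreal_nonneg _)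
    exact_mod_cast this
  replace a2 := (lintegral_eq_zero_iff (meas_log _).neg.ereal_toENNReal).1 a2
  have a3 : ∀ᵐ x ∂(σ : Measure Bq), x.1 1 = 0 := by
    filter_upwards [a2] with x hx
    refine (mul_eq_zero.1 (x.2.2 0 1 (by simp))).resolve_left fun h0 => ?_
    simp [h0] at hx
  have hf : 1 + (3 : ℂ) • X 1 ∈ BA := BA.add_mem BA.one_mem (BA.smul_mem (X_mem 1) _)
  have b1 := h2 _ hf
  have hge : ∀ x : Bq, x.1 1 * star (x.1 1) = 1 → 1 < ‖(1 + (3 : ℂ) • X 1) x‖ₑ := by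
    intro x hx
    have h3 := norm_sub_norm_le ((3 : ℂ) * x.1 1) (-1)
    rw [norm_mul, norm_eq_one_of hx] at h3
    rw [← ofReal_norm, ENNReal.one_lt_ofReal]
    have e : (1 + (3 : ℂ) • X 1) x = 3 * x.1 1 - -1 := by simp; ring
    rw [e]
    simp only [Complex.norm_ofNat, norm_neg, norm_one] at h3
    linarith
  rw [logInt_zero (ν := σ) (a3.mono fun x hx => by simp [hx]), logInt,
    lint_eq_zero (g := fun s => -ENNReal.log ‖(1 + (3 : ℂ) • X 1) s‖ₑ) (ae_mu (by
      rintro n (rfl | rfl) x hx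
      · simp [hx.2 1 (by simp)]
      · rw [EReal.neg_le_zero, ENNReal.zero_le_log_iff]
        exact (hge x hx.1).le))] at b1
  simp only [EReal.coe_ennreal_zero, sub_zero] at b1
  have b2 : ∫⁻ s, (ENNReal.log ‖(1 + (3 : ℂ) • X 1) s‖ₑ).toENNReal ∂(mu : Measure Bq) = 0 := by
    have := le_antisymm b1 (EReal.coe_ennreal_nonneg _)
    exact_mod_cast this
  rw [lintegral_eq_zero_iff (meas_log _).ereal_toENNReal, mu_coe] at b2
  have b3 := (ae_add_measure_iff.1 b2).2
  obtain ⟨x, hx1, hx2⟩ := (b3.and (ae_lam_on 1)).exists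
  have := hge x hx2.1
  rw [← ENNReal.zero_lt_log_iff, ← EReal.toENNReal_pos_iff] at this
  exact this.ne' hx1

theorem result : ∃ (S : Type) (_ : TopologicalSpace S) (_ : CompactSpace S) (_ : T2Space S)
    (_ : TopologicalSpace.MetrizableSpace S) (_ : MeasurableSpace S) (_ : BorelSpace S)
    (A : Subalgebra ℂ C(S, ℂ)) (μ : FiniteMeasure S),
    Adm A ∧ Extremal A μ ∧ (¬ ∃ σ ∈ K A μ, ∀ ν ∈ K A μ, Le A ν σ) ∧
      ¬ ∃ σ ∈ E A μ, ∀ ν ∈ E A μ, Le A ν σ :=
  ⟨Bq, inferInstance, inferInstance, inferInstance, inferInstance, inferInstance,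
    inferInstance, BA, mu, adm_BA, extremal,
    fun ⟨σ, _, h⟩ => nodom σ (h _ (subset_closure mu'_mem)) (h _ (subset_closure (self_mem_E _ _))),
    fun ⟨σ, _, h⟩ => nodom σ (h _ mu'_mem) (h _ (self_mem_E _ _))⟩

end Pool.Agent.Results.MP_a6f573_an.Counter
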